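import Pool.Agent.X203.OBS

namespace Pool.Agent.Results.MP_06b617_an.SeparableMonotone

open Filter Topology Pool.Agent.X203.OBS MeasureTheory

/-- `σ` is the supremum (least upper bound) of the sequence `x` for the order given by the
cone `C`. -/
def IsSup {X : Type*} [AddCommGroup X] (C : Set X) (x : ℕ → X) (σ : X) : Prop :=
  (∀ n, σ - x n ∈ C) ∧ ∀ u : X, (∀ n, u - x n ∈ C) → u - σ ∈ C

variable {X : Type*} [NormedAddCommGroup X] [NormedSpace ℝ X] {C : Set X}

theorem IsSup.unique (hC : IsClosedCone C) {x : ℕ → X} {σ τ : X} (h1 : IsSup C x σ)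
    (h2 : IsSup C x τ) : σ = τ := by
  have h3 := h1.2 τ h2.1
  have h4 := h2.2 σ h1.1
  have := hC.pointed (τ - σ) h3 (by simpa using h4)
  rw [sub_eq_zero] at this
  exact this.symm

theorem IsSup.add (hC : IsClosedCone C) {x y : ℕ → X} {σ τ : X}
    (hx : ∀ i j, i ≤ j → x j - x i ∈ C) (hy : ∀ i j, i ≤ j → y j - y i ∈ C)
    (h1 : IsSup C x σ) (h2 : IsSup C y τ) : IsSup C (fun n => x n + y n) (σ + τ) := by
  refine ⟨fun n => ?_, fun u hu => ?_⟩
  · rw [show σ + τ - (x n + y n) = (σ - x n) + (τ - y n) by abel]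
    exact hC.add_mem _ (h1.1 n) _ (h2.1 n)
  · have h3 : ∀ m n, u - y m - x n ∈ C := by
      intro m n
      rcases le_total m n with h | h
      · rw [show u - y m - x n = (u - (x n + y n)) + (y n - y m) by abel]
        exact hC.add_mem _ (hu n) _ (hy m n h)
      · rw [show u - y m - x n = (u - (x m + y m)) + (x m - x n) by abel]
        exact hC.add_mem _ (hu m) _ (hx n m h)
    have h4 : ∀ m, u - σ - y m ∈ C := by
      intro m
      have := h1.2 (u - y m) (fun n => h3 m n)
      rwa [show u - σ - y m = u - y m - σ by abel]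
    have h5 := h2.2 (u - σ) h4
    rwa [show u - (σ + τ) = u - σ - τ by abel]

/-- partial sums over the set `B` -/
noncomputable def s (d : ℕ → X) (B : Set ℕ) (n : ℕ) : X := ∑ k ∈ Finset.range n, B.indicator d k

theorem s_mono (hC : IsClosedCone C) {d : ℕ → X} (hd : ∀ k, d k ∈ C) (B : Set ℕ) (i j : ℕ)
    (hij : i ≤ j) : s d B j - s d B i ∈ C := by
  classical
  unfold s
  rw [← Finset.sum_sdiff_eq_sub (Finset.range_mono hij)]
  apply hC.sum_mem
  intro k _
  rw [Set.indicator_apply]
  split_ifs
  · exact hd k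
  · exact hC.zero_mem

theorem indicator_mem (hC : IsClosedCone C) {d : ℕ → X} (hd : ∀ k, d k ∈ C) (B : Set ℕ) (k : ℕ) :
    B.indicator d k ∈ C := by
  classical
  rw [Set.indicator_apply]
  split_ifs
  · exact hd k
  · exact hC.zero_mem

/-- The data: positive increments with bounded partial sums, and a supremum for each subset. -/
structure Data (C : Set X) (d : ℕ → X) (v : X) (F : Set ℕ → X) : Prop where
  cone : IsClosedCone C
  pos : ∀ k, d k ∈ C
  bdd : ∀ n, v - ∑ k ∈ Finset.range n, d k ∈ C
  sup : ∀ B, IsSup C (s d B) (F B)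

namespace Data

variable {d : ℕ → X} {v : X} {F : Set ℕ → X} (D : Data C d v F)

include D

theorem F_union {A B : Set ℕ} (h : Disjoint A B) : F (A ∪ B) = F A + F B := by
  apply IsSup.unique D.cone (D.sup _)
  have h1 := IsSup.add D.cone (s_mono D.cone D.pos A) (s_mono D.cone D.pos B) (D.sup A) (D.sup B)
  convert h1 using 2
  unfold s
  rw [← Finset.sum_add_distrib]
  apply Finset.sum_congr rfl
  intro k _
  rw [Set.indicator_union_of_disjoint h]

theorem F_le (B : Set ℕ) : v - F B ∈ C := by
  apply (D.sup B).2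
  intro n
  have h1 := D.bdd n
  have h2 : ∑ k ∈ Finset.range n, d k - s d B n ∈ C := by
    unfold s
    rw [← Finset.sum_sub_distrib]
    apply D.cone.sum_mem
    intro k _
    classical
    rw [Set.indicator_apply]
    split_ifs
    · simpa using D.cone.zero_mem
    · simpa using D.pos k
  have := D.cone.add_mem _ h1 _ h2
  simpa using this

theorem F_finite {B : Set ℕ} {N : ℕ} (hB : ∀ k ∈ B, k < N) :
    F B = ∑ k ∈ Finset.range N, B.indicator d k := by
  classical
  apply IsSup.unique D.cone (D.sup _)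
  have h1 : ∀ m, N ≤ m → s d B m = s d B N := by
    intro m hm
    unfold s
    symm
    apply Finset.sum_subset (Finset.range_mono hm)
    intro k _ hk
    rw [Set.indicator_of_notMem]
    intro hkB
    exact hk (Finset.mem_range.2 (hB k hkB))
  refine ⟨fun n => ?_, fun u hu => hu N⟩
  rcases le_total n N with h | h
  · exact s_mono D.cone D.pos B n N h
  · rw [h1 n h]
    simpa [s] using D.cone.zero_mem

theorem F_singleton (n : ℕ) : F {n} = d n := by
  classical
  rw [D.F_finite (N := n + 1) (by intro k hk; rw [Set.mem_singleton_iff] at hk; omega)]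
  rw [Finset.sum_range_succ, Finset.sum_eq_zero]
  · simp
  · intro k hk
    rw [Set.indicator_of_notMem]
    rw [Set.mem_singleton_iff]
    have := Finset.mem_range.1 hk
    omega

theorem summable {f : X →L[ℝ] ℝ} (hf : ∀ x ∈ C, 0 ≤ f x) (B : Set ℕ) :
    Summable (fun k => f (B.indicator d k)) := by
  apply summable_of_sum_range_le (c := f (F B))
  · intro k
    exact hf _ (indicator_mem D.cone D.pos B k)
  · intro n
    have h1 := hf _ ((D.sup B).1 n)
    rw [map_sub, s, map_sum] at h1
    linarith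

/-- the defect of `f` at `B` -/
theorem tsum_le {f : X →L[ℝ] ℝ} (hf : ∀ x ∈ C, 0 ≤ f x) (B : Set ℕ) :
    ∑' k, f (B.indicator d k) ≤ f (F B) := by
  apply Real.tsum_le_of_sum_range_le
  · intro k
    exact hf _ (indicator_mem D.cone D.pos B k)
  · intro n
    have h1 := hf _ ((D.sup B).1 n)
    rw [map_sub, s, map_sum] at h1
    linarith

theorem tsum_union {f : X →L[ℝ] ℝ} (hf : ∀ x ∈ C, 0 ≤ f x) {A B : Set ℕ} (h : Disjoint A B) :
    ∑' k, f ((A ∪ B).indicator d k) = ∑' k, f (A.indicator d k) + ∑' k, f (B.indicator d k) := by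
  rw [← (D.summable hf A).tsum_add (D.summable hf B)]
  congr 1
  ext k
  rw [← map_add]
  congr 1
  rw [Set.indicator_union_of_disjoint h]

theorem defect_mono {f : X →L[ℝ] ℝ} (hf : ∀ x ∈ C, 0 ≤ f x) {A B : Set ℕ} (h : B ⊆ A)
    (hA : f (F A) = ∑' k, f (A.indicator d k)) : f (F B) = ∑' k, f (B.indicator d k) := by
  have h1 : A = B ∪ (A \ B) := (Set.union_sdiff_cancel h).symm
  have hdis : Disjoint B (A \ B) := Set.disjoint_sdiff_right
  rw [h1, D.F_union hdis, D.tsum_union hf hdis, map_add] at hA
  have h2 := D.tsum_le hf B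
  have h3 := D.tsum_le hf (A \ B)
  linarith

/-- sums of defects over pairwise disjoint sets -/
theorem sum_F_le {ι : Type*} (T : Finset ι) (B : ι → Set ℕ)
    (hB : ∀ i ∈ T, ∀ j ∈ T, i ≠ j → Disjoint (B i) (B j)) :
    ∑ i ∈ T, F (B i) = F (⋃ i ∈ T, B i) := by
  classical
  induction T using Finset.induction_on with
  | empty =>
    have : F ∅ = 0 := by
      rw [D.F_finite (N := 0) (by simp)]
      simp
    simp [this]
  | insert a T ha ih =>
    rw [Finset.sum_insert ha, ih (fun i hi j hj hij => hB i (Finset.mem_insert_of_mem hi) j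
      (Finset.mem_insert_of_mem hj) hij), Finset.set_biUnion_insert, D.F_union]
    rw [Set.disjoint_iUnion₂_right]
    intro i hi
    exact hB a (Finset.mem_insert_self a T) i (Finset.mem_insert_of_mem hi)
      (fun h => ha (h ▸ hi))

/-- sums of defects over almost disjoint sets -/
theorem sum_defect_le {f : X →L[ℝ] ℝ} (hf : ∀ x ∈ C, 0 ≤ f x) {ι : Type*} (T : Finset ι)
    (A : ι → Set ℕ) (N : ℕ)
    (hA : ∀ i ∈ T, ∀ j ∈ T, i ≠ j → ∀ k ∈ A i, k ∈ A j → k < N) :
    ∑ i ∈ T, (f (F (A i)) - ∑' k, f ((A i).indicator d k)) ≤ f v := by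
  classical
  have h1 : ∀ i, f (F (A i)) - ∑' k, f ((A i).indicator d k) ≤ f (F (A i ∩ {k | N ≤ k})) := by
    intro i
    have hsplit : A i = (A i ∩ {k | k < N}) ∪ (A i ∩ {k | N ≤ k}) := by
      ext k
      simp only [Set.mem_union, Set.mem_inter_iff, Set.mem_ofPred_eq]
      constructor
      · intro h
        rcases lt_or_ge k N with h' | h'
        · exact Or.inl ⟨h, h'⟩
        · exact Or.inr ⟨h, h'⟩
      · rintro (h | h) <;> exact h.1
    have hdis : Disjoint (A i ∩ {k | k < N}) (A i ∩ {k | N ≤ k}) := by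
      rw [Set.disjoint_left]
      rintro k ⟨-, h2⟩ ⟨-, h3⟩
      simp only [Set.mem_ofPred_eq] at h2 h3
      omega
    have h2 : F (A i) = F (A i ∩ {k | k < N}) + F (A i ∩ {k | N ≤ k}) := by
      conv_lhs => rw [hsplit]
      exact D.F_union hdis
    have h3 : ∑' k, f ((A i).indicator d k) = ∑' k, f ((A i ∩ {k | k < N}).indicator d k) +
        ∑' k, f ((A i ∩ {k | N ≤ k}).indicator d k) := by
      conv_lhs => rw [hsplit]
      exact D.tsum_union hf hdis
    have h4 : f (F (A i ∩ {k | k < N})) = ∑' k, f ((A i ∩ {k | k < N}).indicator d k) := by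
      rw [D.F_finite (N := N) (by rintro k ⟨-, h⟩; exact h), map_sum]
      rw [tsum_eq_sum (s := Finset.range N)]
      intro k hk
      rw [Set.indicator_of_notMem, map_zero]
      rintro ⟨-, h⟩
      exact hk (Finset.mem_range.2 h)
    have h5 : 0 ≤ ∑' k, f ((A i ∩ {k | N ≤ k}).indicator d k) :=
      tsum_nonneg fun k => hf _ (indicator_mem D.cone D.pos _ k)
    rw [h2, h3, map_add]
    linarith
  calc ∑ i ∈ T, (f (F (A i)) - ∑' k, f ((A i).indicator d k))
      ≤ ∑ i ∈ T, f (F (A i ∩ {k | N ≤ k})) := Finset.sum_le_sum fun i _ => h1 i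
    _ = f (∑ i ∈ T, F (A i ∩ {k | N ≤ k})) := (map_sum _ _ _).symm
    _ = f (F (⋃ i ∈ T, A i ∩ {k | N ≤ k})) := by
        rw [D.sum_F_le T (fun i => A i ∩ {k | N ≤ k})]
        intro i hi j hj hij
        rw [Set.disjoint_left]
        rintro k ⟨h2, h3⟩ ⟨h4, -⟩
        have := hA i hi j hj hij k h2 h4
        simp only [Set.mem_ofPred_eq] at h3
        omega
    _ ≤ f v := by
        have := hf _ (D.F_le (⋃ i ∈ T, A i ∩ {k | N ≤ k}))
        rw [map_sub] at this
        linarith

end Data

/-! ### Almost disjoint family -/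

/-- the branch of `t`, coded in `ℕ` -/
def AD (t : ℕ → Bool) : Set ℕ :=
  Set.range (fun n => Encodable.encode ((List.range n).map t))

theorem AD_injective (t : ℕ → Bool) :
    Function.Injective (fun n => Encodable.encode ((List.range n).map t)) := by
  intro n m h
  have h1 := Encodable.encode_injective h
  have := congrArg List.length h1
  simpa using this

theorem AD_infinite (t : ℕ → Bool) : (AD t).Infinite :=
  Set.infinite_range_of_injective (AD_injective t)

theorem AD_inter {t t' : ℕ → Bool} (h : t ≠ t') : (AD t ∩ AD t').Finite := by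
  obtain ⟨i, hi⟩ := Function.ne_iff.1 h
  apply Set.Finite.subset (Set.Finite.image (fun n => Encodable.encode ((List.range n).map t))
    (Set.finite_Iic i))
  rintro k ⟨⟨n, rfl⟩, ⟨m, hm⟩⟩
  refine ⟨n, ?_, rfl⟩
  rw [Set.mem_Iic]
  by_contra hcon
  push Not at hcon
  have h1 := Encodable.encode_injective hm
  have h2 : m = n := by
    have := congrArg List.length h1
    simpa using this
  subst h2
  apply hi
  have h3 := congrArg (fun l => l[i]?) h1
  simp only [List.getElem?_map, List.getElem?_range hcon, Option.map_some] at h3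
  exact (Option.some_injective _ h3).symm

theorem uncountable_seq : ¬ Countable (ℕ → Bool) := by
  intro h
  obtain ⟨f, hf⟩ := exists_surjective_nat (ℕ → Bool)
  obtain ⟨n, hn⟩ := hf (fun n => !(f n n))
  have := congrFun hn n
  simp at this

/-- There is an infinite set with vanishing defects. -/
theorem exists_good {d : ℕ → X} {v : X} {F : Set ℕ → X} (D : Data C d v F) {ι : Type*}
    [Countable ι] (f : ι → (X →L[ℝ] ℝ)) (hf : ∀ i, ∀ x ∈ C, 0 ≤ f i x) :
    ∃ A : Set ℕ, A.Infinite ∧ ∀ i, f i (F A) = ∑' k, f i (A.indicator d k) := by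
  classical
  by_contra hcon
  push Not at hcon
  have h1 : ∀ t : ℕ → Bool, ∃ p : ι × ℕ,
      1 / ((p.2 : ℝ) + 1) < f p.1 (F (AD t)) - ∑' k, f p.1 ((AD t).indicator d k) := by
    intro t
    obtain ⟨i, hi⟩ := hcon (AD t) (AD_infinite t)
    have h2 := D.tsum_le (hf i) (AD t)
    have h3 : 0 < f i (F (AD t)) - ∑' k, f i ((AD t).indicator d k) :=
      sub_pos.2 (lt_of_le_of_ne h2 (Ne.symm hi))
    obtain ⟨n, hn⟩ := exists_nat_one_div_lt h3
    exact ⟨(i, n), hn⟩
  choose p hp using h1
  -- some fiber is infinite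
  have h2 : ∃ q, {t | p t = q}.Infinite := by
    by_contra hfin
    push Not at hfin
    apply uncountable_seq
    have h3 : (Set.univ : Set (ℕ → Bool)) = ⋃ q, {t | p t = q} := by
      ext t; simp
    have h4 : (Set.univ : Set (ℕ → Bool)).Countable := by
      rw [h3]
      apply Set.countable_iUnion
      intro q
      exact (hfin q).countable
    exact Set.countable_univ_iff.1 h4
  obtain ⟨q, hq⟩ := h2
  -- many elements
  obtain ⟨K, hK⟩ := exists_nat_gt (f q.1 v * ((q.2 : ℝ) + 1))
  obtain ⟨T, hTs, hTc⟩ := hq.exists_subset_card_eq K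
  have hfin : (⋃ i ∈ T, ⋃ j ∈ T, if i = j then (∅ : Set ℕ) else AD i ∩ AD j).Finite := by
    apply Set.Finite.biUnion (Finset.finite_toSet T)
    intro i _
    apply Set.Finite.biUnion (Finset.finite_toSet T)
    intro j _
    split_ifs with h
    · exact Set.finite_empty
    · exact AD_inter h
  obtain ⟨N, hN⟩ := hfin.bddAbove
  have h3 := D.sum_defect_le (hf q.1) T AD (N + 1) (by
    intro i hi j hj hij k hki hkj
    have : k ∈ (⋃ i ∈ T, ⋃ j ∈ T, if i = j then (∅ : Set ℕ) else AD i ∩ AD j) := by
      simp only [Set.mem_iUnion]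
      refine ⟨i, hi, j, hj, ?_⟩
      rw [if_neg hij]
      exact ⟨hki, hkj⟩
    have := hN this
    omega)
  have h4 : ∑ i ∈ T, (1 / ((q.2 : ℝ) + 1)) ≤
      ∑ i ∈ T, (f q.1 (F (AD i)) - ∑' k, f q.1 ((AD i).indicator d k)) := by
    apply Finset.sum_le_sum
    intro t ht
    have h5 : p t = q := hTs ht
    have := hp t
    rw [h5] at this
    exact this.le
  rw [Finset.sum_const, hTc, nsmul_eq_mul] at h4
  have h5 : (K : ℝ) * (1 / ((q.2 : ℝ) + 1)) ≤ f q.1 v := h4.trans h3
  rw [mul_one_div, div_le_iff₀ (by positivity)] at h5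
  linarith

/-! ### Countably many positive functionals separate points -/

theorem exists_pos_functional (hC : IsClosedCone C) {x : X} (hx : x ≠ 0) :
    ∃ f : X →L[ℝ] ℝ, (∀ y ∈ C, 0 ≤ f y) ∧ f x ≠ 0 := by
  have hconv : Convex ℝ C := by
    intro a ha b hb r s hr hs _
    exact hC.add_mem _ (hC.smul_mem r hr a ha) _ (hC.smul_mem s hs b hb)
  have key : ∀ z : X, z ∉ C → ∃ f : X →L[ℝ] ℝ, (∀ y ∈ C, 0 ≤ f y) ∧ f z ≠ 0 := by
    intro z hz
    obtain ⟨f, u, h1, h2⟩ := geometric_hahn_banach_closed_point hconv hC.isClosed hz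
    have hu : 0 < u := by simpa using h1 0 hC.zero_mem
    refine ⟨-f, ?_, ?_⟩
    · intro y hy
      rw [_root_.neg_apply]
      by_contra hcon
      push Not at hcon
      have hfy : 0 < f y := by linarith
      have h3 := h1 ((u / f y) • y) (hC.smul_mem _ (by positivity) _ hy)
      rw [map_smul, smul_eq_mul, div_mul_cancel₀ _ hfy.ne'] at h3
      exact lt_irrefl _ h3
    · rw [_root_.neg_apply]
      have : 0 < f z := hu.trans h2
      linarith
  by_cases h : x ∈ C
  · have h2 : -x ∉ C := fun h3 => hx (hC.pointed x h h3)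
    obtain ⟨f, hf1, hf2⟩ := key (-x) h2
    exact ⟨f, hf1, by simpa using hf2⟩
  · exact key x h

theorem exists_countable_pos [TopologicalSpace.SeparableSpace X] (hC : IsClosedCone C) :
    ∃ T : Set {f : X →L[ℝ] ℝ // ∀ y ∈ C, 0 ≤ f y}, T.Countable ∧
      ∀ x : X, (∀ f ∈ T, (f : X →L[ℝ] ℝ) x = 0) → x = 0 := by
  have : SecondCountableTopology X := UniformSpace.secondCountable_of_separable X
  obtain ⟨T, hT, hTU⟩ := TopologicalSpace.isOpen_iUnion_countable
    (fun f : {f : X →L[ℝ] ℝ // ∀ y ∈ C, 0 ≤ f y} => {x : X | (f : X →L[ℝ] ℝ) x ≠ 0})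
    (fun f => isOpen_ne_fun f.1.continuous continuous_const)
  refine ⟨T, hT, fun x hx => ?_⟩
  by_contra hne
  obtain ⟨f, hf1, hf2⟩ := exists_pos_functional hC hne
  have h1 : x ∈ ⋃ i : {f : X →L[ℝ] ℝ // ∀ y ∈ C, 0 ≤ f y}, {x : X | (i : X →L[ℝ] ℝ) x ≠ 0} :=
    Set.mem_iUnion.2 ⟨⟨f, hf1⟩, hf2⟩
  rw [← hTU] at h1
  simp only [Set.mem_iUnion] at h1
  obtain ⟨g, hg, hgx⟩ := h1
  exact hgx (hx g hg)

/-! ### The measure theoretic argument -/

/-- the subset of `A` coded by `g` -/
def sub (A : Set ℕ) (g : ℕ → ZMod 2) : Set ℕ := {n ∈ A | g n ≠ 0}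

theorem no_good [CompleteSpace X] [TopologicalSpace.SeparableSpace X] {d : ℕ → X} {v : X}
    {F : Set ℕ → X} (D : Data C d v F) {ε : ℝ} (hε : 0 < ε) (hd : ∀ n, ε ≤ ‖d n‖) : False := by
  classical
  obtain ⟨T, hT, hTsep⟩ := exists_countable_pos D.cone
  have : Countable T := hT.to_subtype
  obtain ⟨A, hAinf, hA⟩ := exists_good D (fun i : T => (i.1 : X →L[ℝ] ℝ)) (fun i => i.1.2)
  let : MeasurableSpace X := borel X
  have : BorelSpace X := ⟨rfl⟩
  have : SecondCountableTopology X := UniformSpace.secondCountable_of_separable X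
  let Φ : X → (T → ℝ) := fun x i => (i.1 : X →L[ℝ] ℝ) x
  have hΦc : Continuous Φ := continuous_pi fun i => (i.1 : X →L[ℝ] ℝ).continuous
  have hΦi : Function.Injective Φ := by
    intro x y hxy
    have h1 : x - y = 0 := by
      apply hTsep
      intro f hf
      have := congrFun hxy ⟨f, hf⟩
      simp only [Φ] at this
      rw [map_sub, this, sub_self]
    exact sub_eq_zero.1 h1
  have hΦm : MeasurableEmbedding Φ := hΦc.measurableEmbedding hΦi
  let H : (ℕ → ZMod 2) → X := fun g => F (sub A g)
  have hHm : Measurable H := by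
    rw [← hΦm.measurable_comp_iff]
    apply Continuous.measurable
    apply continuous_pi
    intro i
    have h1 : ∀ g, (Φ ∘ H) g i = ∑' k, (i.1 : X →L[ℝ] ℝ) ((sub A g).indicator d k) := by
      intro g
      exact D.defect_mono i.1.2 (fun n hn => hn.1) (hA i)
    simp_rw [h1]
    apply continuous_tsum (u := fun k => (i.1 : X →L[ℝ] ℝ) ((Set.univ : Set ℕ).indicator d k))
    · intro k
      have h2 : (fun g : ℕ → ZMod 2 => (i.1 : X →L[ℝ] ℝ) ((sub A g).indicator d k)) =
          (fun z : ZMod 2 => (i.1 : X →L[ℝ] ℝ) (if k ∈ A ∧ z ≠ 0 then d k else 0)) ∘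
            (fun g => g k) := by
        ext g
        simp only [Function.comp, Set.indicator_apply, sub, Set.mem_ofPred_eq]
      rw [h2]
      exact continuous_of_discreteTopology.comp (continuous_apply k)
    · exact D.summable i.1.2 _
    · intro k g
      rw [Real.norm_eq_abs, abs_of_nonneg (i.1.2 _ (indicator_mem D.cone D.pos _ k)),
        Set.indicator_univ, Set.indicator_apply]
      split_ifs
      · exact le_rfl
      · rw [map_zero]
        exact i.1.2 _ (D.pos k)
  -- some ball has a preimage of positive measure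
  let μ : Measure (ℕ → ZMod 2) := Measure.addHaar
  have hpos : ∃ n, 0 < μ (H ⁻¹' Metric.ball (TopologicalSpace.denseSeq X n) (ε / 2)) := by
    by_contra hcon
    push Not at hcon
    have h1 : μ Set.univ = 0 := by
      have h2 : (Set.univ : Set (ℕ → ZMod 2)) =
          ⋃ n, H ⁻¹' Metric.ball (TopologicalSpace.denseSeq X n) (ε / 2) := by
        ext g
        simp only [Set.mem_univ, Set.mem_iUnion, Set.mem_preimage, Metric.mem_ball, true_iff]
        exact (TopologicalSpace.denseRange_denseSeq X).exists_dist_lt (H g) (half_pos hε)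
      rw [h2]
      exact measure_iUnion_null fun n => le_antisymm (hcon n) bot_le
    have h3 : (0 : ENNReal) < μ Set.univ := isOpen_univ.measure_pos μ ⟨0, trivial⟩
    exact h3.ne' h1
  obtain ⟨n, hn⟩ := hpos
  set E := H ⁻¹' Metric.ball (TopologicalSpace.denseSeq X n) (ε / 2) with hE
  have hEm : MeasurableSet E := hHm measurableSet_ball
  have hst := Measure.sub_mem_nhds_zero_of_addHaar_pos μ E hEm hn
  -- the unit vectors tend to zero
  have hlim : Tendsto (fun m : ℕ => (Pi.single m 1 : ℕ → ZMod 2)) atTop (𝓝 0) := by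
    rw [tendsto_pi_nhds]
    intro k
    apply tendsto_nhds_of_eventually_eq
    filter_upwards [eventually_gt_atTop k] with m hm
    simp only [Pi.zero_apply]
    rw [Pi.single_apply, if_neg (by omega)]
  have hev := hlim.eventually hst
  rw [eventually_atTop] at hev
  obtain ⟨m₀, hm₀⟩ := hev
  obtain ⟨m, hmA, hm⟩ := hAinf.exists_gt m₀
  obtain ⟨g, hg, g', hg', hgg⟩ := hm₀ m hm.le
  -- WLOG
  have key : ∀ a b : ℕ → ZMod 2, a ∈ E → b ∈ E → (∀ k, k ≠ m → a k = b k) → a m = 0 → b m ≠ 0 →
      False := by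
    intro a b ha hb hab ham hbm
    have h1 : sub A b = sub A a ∪ {m} := by
      ext k
      simp only [sub, Set.mem_ofPred_eq, Set.mem_union, Set.mem_singleton_iff]
      by_cases hk : k = m
      · subst hk
        simp [hmA, hbm]
      · rw [hab k hk]; simp [hk]
    have h2 : Disjoint (sub A a) {m} := by
      rw [Set.disjoint_singleton_right]
      rintro ⟨-, h⟩
      exact h ham
    have h3 : H b - H a = d m := by
      simp only [H]
      rw [h1, D.F_union h2, D.F_singleton]
      abel
    have h4 : dist (H b) (H a) < ε := by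
      have h5 : dist (H a) (TopologicalSpace.denseSeq X n) < ε / 2 := ha
      have h6 : dist (H b) (TopologicalSpace.denseSeq X n) < ε / 2 := hb
      have := dist_triangle_right (H b) (H a) (TopologicalSpace.denseSeq X n)
      linarith
    rw [dist_eq_norm, h3] at h4
    exact absurd (hd m) (not_le.2 h4)
  have hne : ∀ k, k ≠ m → g k = g' k := by
    intro k hk
    have := congrFun hgg k
    simp only [Pi.sub_apply] at this
    rw [Pi.single_apply, if_neg hk] at this
    exact sub_eq_zero.1 this
  have hm1 : g m - g' m = 1 := by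
    have := congrFun hgg m
    simpa using this
  have hz : ∀ a : ZMod 2, a = 0 ∨ a = 1 := by decide
  rcases hz (g m) with h | h
  · apply key g g' hg hg' hne h
    intro h'
    rw [h, h'] at hm1
    revert hm1; decide
  · apply key g' g hg' hg (fun k hk => (hne k hk).symm)
    · rw [h] at hm1
      rcases hz (g' m) with h' | h'
      · exact h'
      · exfalso
        rw [h'] at hm1
        revert hm1; decide
    · rw [h]; decide

/-- If `X` is a separable ordered Banach space (with closed cone `C`, not assumed normal) in which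
every order bounded increasing sequence has a supremum, then every order bounded increasing
sequence in `X` converges in norm. -/
theorem result (X : Type*) [NormedAddCommGroup X] [NormedSpace ℝ X] [CompleteSpace X]
    [TopologicalSpace.SeparableSpace X] (C : Set X) (hC : IsClosedCone C)
    (hS : ∀ x : ℕ → X, (∀ n, x (n + 1) - x n ∈ C) → (∃ v, ∀ n, v - x n ∈ C) →
      ∃ σ, IsSup C x σ)
    (x : ℕ → X) (hx : ∀ n, x (n + 1) - x n ∈ C) (hv : ∃ v, ∀ n, v - x n ∈ C) :
    ∃ b, Tendsto x atTop (𝓝 b) := by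
  classical
  apply cauchySeq_tendsto_of_complete
  by_contra hcau
  rw [Metric.cauchySeq_iff'] at hcau
  push Not at hcau
  obtain ⟨ε, hε, hcau⟩ := hcau
  choose nx hnx hnx' using hcau
  have hmono : ∀ i j, i ≤ j → x j - x i ∈ C := by
    intro i j hij
    induction j, hij using Nat.le_induction with
    | base => simpa using hC.zero_mem
    | succ j _ ih =>
      have := hC.add_mem _ (hx j) _ ih
      simpa using this
  obtain ⟨v, hv⟩ := hv
  let N : ℕ → ℕ := fun k => nx^[k] 0
  have hN : ∀ k, N (k + 1) = nx (N k) := fun k => Function.iterate_succ_apply' nx k 0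
  let d : ℕ → X := fun k => x (N (k + 1)) - x (N k)
  have hd : ∀ k, d k ∈ C := by
    intro k
    apply hmono
    rw [hN]
    exact hnx _
  have hsum : ∀ n, ∑ k ∈ Finset.range n, d k = x (N n) - x (N 0) := fun n =>
    Finset.sum_range_sub (fun k => x (N k)) n
  have hbdd : ∀ n, (v - x (N 0)) - ∑ k ∈ Finset.range n, d k ∈ C := by
    intro n
    rw [hsum]
    have := hv (N n)
    rwa [show v - x (N 0) - (x (N n) - x (N 0)) = v - x (N n) by abel]
  have hsup : ∀ B : Set ℕ, ∃ σ, IsSup C (s d B) σ := by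
    intro B
    apply hS
    · intro n
      exact s_mono hC hd B n (n + 1) (Nat.le_succ n)
    · refine ⟨v - x (N 0), fun n => ?_⟩
      have h2 : ∑ k ∈ Finset.range n, d k - s d B n ∈ C := by
        unfold s
        rw [← Finset.sum_sub_distrib]
        apply hC.sum_mem
        intro k _
        rw [Set.indicator_apply]
        split_ifs
        · simpa using hC.zero_mem
        · simpa using hd k
      have := hC.add_mem _ (hbdd n) _ h2
      simpa using this
  choose F hF using hsup
  have D : Data C d (v - x (N 0)) F := ⟨hC, hd, hbdd, hF⟩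
  apply no_good D hε
  intro n
  show ε ≤ ‖x (N (n + 1)) - x (N n)‖
  rw [← dist_eq_norm, hN]
  exact hnx' (N n)

end Pool.Agent.Results.MP_06b617_an.SeparableMonotone
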